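import Pool.Agent.helper52.EU.SpecI

/-!
# Project eu (MP_ad8ced_nt), row WBX: the exact decomposition of the bilinear form
(copy of Pool/Agent/helper31/FJ/WBN.lean with the signs kept)
-/

set_option autoImplicit false

open Finset

noncomputable section

namespace Pool.Agent.EU

open Pool.Agent.FI Pool.Agent.FJ

private theorem WBX_cardprod {α β : Type} (S : Finset α) (B : Finset β) (P : α × β → Prop)
    [DecidablePred P] : (#{t ∈ S ×ˢ B | P t} : ℝ) = ∑ a ∈ S, (#{b ∈ B | P (a, b)} : ℝ) := by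
  rw [card_filter]
  push_cast
  rw [sum_product]
  refine sum_congr rfl fun a _ => ?_
  rw [card_filter]
  push_cast
  rfl

/-- the sum over the `w` for one pair -/
private def WBX_T (R A : ℕ) (lam : ℤ → ℝ) (z z' : ℤ × ℤ) : ℝ :=
  ∑ w ∈ Bx R with w.1 % 2 = 1, lam (lc z w) * lam (lc z' w) * ga A (ac z w) * ga A (ac z' w)

private theorem WBX_ga (A : ℕ) (a : ℤ) : 0 ≤ ga A a ∧ ga A a ≤ 1 := by
  unfold ga
  split_ifs <;> norm_num

private theorem WBX_gaP (A : ℕ) (a : ℤ) (h : ga A a ≠ 0) : 0 < a ∧ a ≤ A := by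
  unfold ga at h
  by_cases h1 : 0 < a ∧ a ≤ A
  · exact h1
  · rw [if_neg h1] at h
    exact absurd rfl h

private theorem WBX_gaA (A : ℕ) (a : ℤ) (h : ga A a ≠ 0) : |a| ≤ A := by
  obtain ⟨h1, h2⟩ := WBX_gaP A a h
  rw [abs_of_pos h1]
  exact h2

private theorem WBX_term (A : ℕ) (M : ℝ) (lam : ℤ → ℝ) (hlam : ∀ l, |lam l| ≤ M) (l l' a a' : ℤ) :
    |lam l * lam l' * ga A a * ga A a'| ≤ M ^ 2 := by
  have hM : 0 ≤ M := (abs_nonneg _).trans (hlam 0)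
  rw [abs_mul, abs_mul, abs_mul, abs_of_nonneg (WBX_ga A a).1, abs_of_nonneg (WBX_ga A a').1]
  calc |lam l| * |lam l'| * ga A a * ga A a' ≤ M * M * 1 * 1 := by
        have h1 := (WBX_ga A a)
        have h2 := (WBX_ga A a')
        have h3 : |lam l| * |lam l'| ≤ M * M := mul_le_mul (hlam l) (hlam l') (abs_nonneg _) hM
        have h4 : |lam l| * |lam l'| * ga A a ≤ M * M * 1 := mul_le_mul h3 h1.2 h1.1 (by positivity)
        exact mul_le_mul h4 h2.2 h2.1 (by positivity)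
    _ = M ^ 2 := by ring

open scoped Classical in
private theorem WBX_T_triv (R A : ℕ) (M : ℝ) (lam : ℤ → ℝ) (hlam : ∀ l, |lam l| ≤ M)
    (z z' : ℤ × ℤ) : |WBX_T R A lam z z'| ≤ M ^ 2 * (#{w ∈ Bx R | |ac z w| ≤ A} : ℝ) := by
  unfold WBX_T
  refine (abs_sum_le_sum_abs _ _).trans ?_
  calc ∑ w ∈ Bx R with w.1 % 2 = 1, |lam (lc z w) * lam (lc z' w) * ga A (ac z w) * ga A (ac z' w)|
      ≤ ∑ w ∈ Bx R, |lam (lc z w) * lam (lc z' w) * ga A (ac z w) * ga A (ac z' w)| :=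
        sum_le_sum_of_subset_of_nonneg (filter_subset _ _) fun _ _ _ => abs_nonneg _
    _ ≤ ∑ w ∈ Bx R, (if |ac z w| ≤ A then M ^ 2 else 0) := by
        refine sum_le_sum fun w _ => ?_
        split_ifs with h1
        · exact WBX_term A M lam hlam _ _ _ _
        · have h2 : ga A (ac z w) = 0 := by
            by_contra h3
            exact h1 (WBX_gaA A _ h3)
          rw [h2, mul_zero, zero_mul, abs_zero]
    _ = M ^ 2 * (#{w ∈ Bx R | |ac z w| ≤ A} : ℝ) := by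
        rw [← sum_filter, sum_const, nsmul_eq_mul, mul_comm]

private theorem WBX_WW (N R A : ℕ) (β : ℤ × ℤ → ℝ) (lam : ℤ → ℝ) :
    WW N R A β lam = ∑ p ∈ ZD N ×ˢ ZD N, β p.1 * β p.2 * WBX_T R A lam p.1 p.2 := by
  unfold WW WBX_T
  simp_rw [mul_sum]
  rw [sum_comm]
  refine sum_congr rfl fun w _ => ?_
  rw [sq, sum_mul_sum, sum_product]
  refine sum_congr rfl fun z _ => sum_congr rfl fun z' _ => ?_
  ring

/-- a common prime divisor divides the second coordinate as well -/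
private theorem WBX_dvd (z z' w : ℤ × ℤ) (g : ℤ) (hz : IsCoprime z.1 z.2) (h1 : g ∣ lc z w)
    (h2 : g ∣ dl z z') : g ∣ lc z' w := by
  obtain ⟨a, ha⟩ := h1
  obtain ⟨b, hb⟩ := h2
  obtain ⟨p, q, hpq⟩ := hz
  unfold lc at ha ⊢
  unfold dl at hb
  refine ⟨p * (z'.1 * a - w.1 * b) + q * (z'.2 * a + w.2 * b), ?_⟩
  linear_combination (-(z'.1 * w.2 + z'.2 * w.1)) * hpq + (p * z'.1 + q * z'.2) * ha +
    (q * w.2 - p * w.1) * hb

open scoped Classical in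
private theorem WBX_split (x Z R A : ℕ) (M : ℝ) (lam : ℤ → ℝ) (hlam : LamOK x Z M lam)
    (z z' : ℤ × ℤ) (hz : IsCoprime z.1 z.2) :
    |WBX_T R A lam z z' - Tc R A lam z z'| ≤ M ^ 2 *
      (#{w ∈ Bx R | w.1 % 2 = 1 ∧ (x : ℤ) < lc z w ∧ lc z w ≤ 2 * x ∧ |ac z w| ≤ A ∧ |ac z' w| ≤ A ∧
        ∃ g : ℕ, g.Prime ∧ Z < g ∧ (g : ℤ) ∣ lc z w ∧ (g : ℤ) ∣ lc z' w} : ℝ) := by
  set F : ℤ × ℤ → ℝ := fun w => lam (lc z w) * lam (lc z' w) * ga A (ac z w) * ga A (ac z' w) with hF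
  have h1 : WBX_T R A lam z z' - Tc R A lam z z' =
      ∑ w ∈ Bx R with w.1 % 2 = 1 ∧ ¬ IsCoprime (lc z w) (dl z z'), F w := by
    rw [sub_eq_iff_eq_add, add_comm]
    unfold WBX_T Tc
    rw [← filter_filter, ← filter_filter, sum_filter_add_sum_filter_not]
  rw [h1]
  refine (abs_sum_le_sum_abs _ _).trans ?_
  have h2 : ∑ w ∈ Bx R with w.1 % 2 = 1 ∧ ¬ IsCoprime (lc z w) (dl z z'), |F w| ≤
      ∑ w ∈ Bx R with w.1 % 2 = 1 ∧ (x : ℤ) < lc z w ∧ lc z w ≤ 2 * x ∧ |ac z w| ≤ A ∧ |ac z' w| ≤ A ∧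
        ∃ g : ℕ, g.Prime ∧ Z < g ∧ (g : ℤ) ∣ lc z w ∧ (g : ℤ) ∣ lc z' w, |F w| := by
    have h3 : ∀ w ∈ (Bx R).filter fun w => w.1 % 2 = 1 ∧ ¬ IsCoprime (lc z w) (dl z z'), |F w| ≠ 0 →
        w ∈ (Bx R).filter fun w => w.1 % 2 = 1 ∧ (x : ℤ) < lc z w ∧ lc z w ≤ 2 * x ∧ |ac z w| ≤ A ∧ |ac z' w| ≤ A ∧
          ∃ g : ℕ, g.Prime ∧ Z < g ∧ (g : ℤ) ∣ lc z w ∧ (g : ℤ) ∣ lc z' w := by
      intro w hw hne
      rw [mem_filter] at hw ⊢
      obtain ⟨hwB, hodd, hcop⟩ := hw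
      have hl : lam (lc z w) ≠ 0 := by
        intro h0
        apply hne
        rw [hF]
        simp only
        rw [h0, zero_mul, zero_mul, zero_mul, abs_zero]
      obtain ⟨h4, h5, h6⟩ := hlam.2 _ hl
      have hga1 : |ac z w| ≤ A := by
        apply WBX_gaA
        intro h0
        apply hne
        rw [hF]
        simp only
        rw [h0, mul_zero, zero_mul, abs_zero]
      have hga2 : |ac z' w| ≤ A := by
        apply WBX_gaA
        intro h0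
        apply hne
        rw [hF]
        simp only
        rw [h0, mul_zero, abs_zero]
      refine ⟨hwB, hodd, h4, h5, hga1, hga2, ?_⟩
      rw [Int.isCoprime_iff_gcd_eq_one] at hcop
      obtain ⟨g, hg, hgd⟩ := Nat.exists_prime_and_dvd hcop
      have hg1 : (g : ℤ) ∣ lc z w := (Int.natCast_dvd_natCast.mpr hgd).trans (Int.gcd_dvd_left _ _)
      have hg2 : (g : ℤ) ∣ dl z z' := (Int.natCast_dvd_natCast.mpr hgd).trans (Int.gcd_dvd_right _ _)
      refine ⟨g, hg, ?_, hg1, WBX_dvd z z' w g hz hg1 hg2⟩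
      by_contra hgZ
      exact h6 g hg (by omega) hg1
    rw [← sum_filter_ne_zero]
    refine sum_le_sum_of_subset_of_nonneg ?_ (fun _ _ _ => abs_nonneg _)
    intro w hw
    rw [mem_filter] at hw
    exact h3 w hw.1 hw.2
  refine h2.trans ?_
  calc _ ≤ ∑ w ∈ Bx R with w.1 % 2 = 1 ∧ (x : ℤ) < lc z w ∧ lc z w ≤ 2 * x ∧ |ac z w| ≤ A ∧ |ac z' w| ≤ A ∧
        ∃ g : ℕ, g.Prime ∧ Z < g ∧ (g : ℤ) ∣ lc z w ∧ (g : ℤ) ∣ lc z' w, M ^ 2 :=
        sum_le_sum fun w _ => WBX_term A M lam hlam.1 _ _ _ _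
    _ = _ := by rw [sum_const, nsmul_eq_mul, mul_comm]

open scoped Classical in
private theorem WBX_ZDcop (N : ℕ) (z : ℤ × ℤ) (hz : z ∈ ZD N) : IsCoprime z.1 z.2 := by
  unfold ZD at hz
  exact (mem_filter.mp hz).2.2

/-- the large determinants do not occur -/
private theorem WBX_zero (hREN : REN_stmt) (x Z N R A : ℕ) (hx : 1 ≤ x) (hN : 1 ≤ N) (hA : 1 ≤ A) (hAx : A ≤ x)
    (M : ℝ) (lam : ℤ → ℝ) (hlam : LamOK x Z M lam) (z z' : ℤ × ℤ) (hz : z ∈ ZD N) (hz' : z' ∈ ZD N)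
    (h : N * A < x * (dl z z').natAbs) : Tc R A lam z z' = 0 := by
  unfold Tc
  refine sum_eq_zero fun w _ => ?_
  by_contra hne
  have h1 : lam (lc z w) ≠ 0 := by
    intro h0
    apply hne
    rw [h0, zero_mul, zero_mul, zero_mul]
  have h2 : lam (lc z' w) ≠ 0 := by
    intro h0
    apply hne
    rw [h0, mul_zero, zero_mul, zero_mul]
  have h3 : ga A (ac z w) ≠ 0 := by
    intro h0
    apply hne
    rw [h0, mul_zero, zero_mul]
  have h4 : ga A (ac z' w) ≠ 0 := by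
    intro h0
    apply hne
    rw [h0, mul_zero]
  obtain ⟨a1, a2, -⟩ := hlam.2 _ h1
  obtain ⟨b1, b2, -⟩ := hlam.2 _ h2
  obtain ⟨c1, c2⟩ := WBX_gaP A _ h3
  obtain ⟨d1, d2⟩ := WBX_gaP A _ h4
  have h5 := (hREN x N A hx hN hA hAx z hz z' hz' w a1 a2 b1 b2 c1 c2 d1 d2).1
  omega

open scoped Classical in
theorem WBX (hPSM : PSM_stmt) (hCPN : CPN_stmt) (hBDN : BDN_stmt) (hREN : REN_stmt) (hWPX : WPX_stmt)
    (_hFFC : FFC_stmt) : WBX_stmt := by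
  obtain ⟨C₁, hC₁, h1⟩ := hPSM
  obtain ⟨C₂, hC₂, h2⟩ := hCPN
  obtain ⟨C₃, hC₃, h3⟩ := hBDN
  refine ⟨C₁ + C₂ + C₃ + 1, by positivity, ?_⟩
  intro om hom x Z N R A K₁ K₃ K₄ hsiz hZ hK₁ hK₃ hK₄ hK M Mβ lam β hlam hβ
  have hM : 0 ≤ M := (abs_nonneg _).trans (hlam.1 0)
  have hMβ : 0 ≤ Mβ := (abs_nonneg _).trans (hβ (0, 0))
  have hlogx : 0 ≤ Real.log x := Real.log_natCast_nonneg x
  have hp1 := h1 x N R A K₁ hsiz hK₁
  have hp2 := h2 x N R A Z hsiz (by omega)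
  have hp3 := h3 x N R A K₃ hsiz (by omega)
  obtain ⟨hx, hN, hR, hA, hAx, hRx, -, -, -⟩ := hsiz
  set Mn : (ℤ × ℤ) × (ℤ × ℤ) → ℝ := fun p => ∑ b ∈ range K₃, ∑ m ∈ GdC x K₃ K₄ A p.1 p.2 b,
      (Eg x K₃ K₄ lam b m (1 * (dl p.1 p.2).natAbs) (om 1 p.1 p.2) -
        Eg x K₃ K₄ lam b m (2 * (dl p.1 p.2).natAbs) (om 2 p.1 p.2)) with hMn
  set D : (ℤ × ℤ) × (ℤ × ℤ) → ℝ := fun p => WBX_T R A lam p.1 p.2 - (if p ∈ Pr x N A K₁ then Mn p else 0) with hD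
  set a : ℝ := M ^ 2 * (N * A ^ 2 / K₁ + x * A) with ha
  set b : ℝ := M ^ 2 * ((1 + Real.log x) * (N * A ^ 2 / Z + x * A * √N + N * √N * A)) with hb
  set c : ℝ := M ^ 2 * (N * A * (A / K₃ + √N)) with hc
  have ha0 : 0 ≤ a := by positivity
  have hb0 : 0 ≤ b := by positivity
  have hc0 : 0 ≤ c := by positivity
  -- the small determinants
  have hP1 : ∑ p ∈ ZD N ×ˢ ZD N with ¬ N * A < K₁ * (x * (dl p.1 p.2).natAbs), |D p| ≤
      C₁ * a := by
    have h4 : ∑ p ∈ ZD N ×ˢ ZD N with ¬ N * A < K₁ * (x * (dl p.1 p.2).natAbs),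
        (#{w ∈ Bx R | |ac p.1 w| ≤ A} : ℝ) ≤ C₁ * (N * A ^ 2 / K₁ + x * A) := by
      refine le_trans (le_of_eq ?_) hp1
      refine sum_congr ?_ fun _ _ => rfl
      refine filter_congr fun p _ => ?_
      exact not_lt
    calc ∑ p ∈ ZD N ×ˢ ZD N with ¬ N * A < K₁ * (x * (dl p.1 p.2).natAbs), |D p|
        ≤ ∑ p ∈ ZD N ×ˢ ZD N with ¬ N * A < K₁ * (x * (dl p.1 p.2).natAbs),
          M ^ 2 * (#{w ∈ Bx R | |ac p.1 w| ≤ A} : ℝ) := by
          refine sum_le_sum fun p hp => ?_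
          have h5 : p ∉ Pr x N A K₁ := by
            intro h6
            unfold Pr at h6
            exact (mem_filter.mp hp).2 (mem_filter.mp h6).2.1
          rw [hD]
          simp only
          rw [if_neg h5, sub_zero]
          exact WBX_T_triv R A M lam hlam.1 _ _
      _ = M ^ 2 * ∑ p ∈ ZD N ×ˢ ZD N with ¬ N * A < K₁ * (x * (dl p.1 p.2).natAbs),
          (#{w ∈ Bx R | |ac p.1 w| ≤ A} : ℝ) := by rw [mul_sum]
      _ ≤ M ^ 2 * (C₁ * (N * A ^ 2 / K₁ + x * A)) := mul_le_mul_of_nonneg_left h4 (sq_nonneg _)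
      _ = C₁ * a := by rw [ha]; ring
  -- the other pairs
  have hP2 : ∑ p ∈ ZD N ×ˢ ZD N with N * A < K₁ * (x * (dl p.1 p.2).natAbs), |D p| ≤
      C₂ * b + C₃ * c := by
    set bad : (ℤ × ℤ) × (ℤ × ℤ) → ℝ := fun p => (#{w ∈ Bx R | w.1 % 2 = 1 ∧ (x : ℤ) < lc p.1 w ∧
      lc p.1 w ≤ 2 * x ∧ |ac p.1 w| ≤ A ∧ |ac p.2 w| ≤ A ∧
      ∃ g : ℕ, g.Prime ∧ Z < g ∧ (g : ℤ) ∣ lc p.1 w ∧ (g : ℤ) ∣ lc p.2 w} : ℝ) with hbad
    set bd : (ℤ × ℤ) × (ℤ × ℤ) → ℝ := fun p => (#(bdN x R A K₃ p.1 p.2) : ℝ) with hbd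
    have hbad0 : ∀ p, 0 ≤ bad p := fun p => Nat.cast_nonneg _
    have hbd0 : ∀ p, 0 ≤ bd p := fun p => Nat.cast_nonneg _
    have hpt : ∀ p ∈ (ZD N ×ˢ ZD N).filter fun p => N * A < K₁ * (x * (dl p.1 p.2).natAbs),
        |D p| ≤ M ^ 2 * bad p + (if x * (dl p.1 p.2).natAbs ≤ N * A then M ^ 2 * bd p else 0) := by
      intro p hp
      have hp' := hp
      rw [mem_filter, mem_product] at hp
      have h4 : |WBX_T R A lam p.1 p.2 - Tc R A lam p.1 p.2| ≤ M ^ 2 * bad p :=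
        WBX_split x Z R A M lam hlam p.1 p.2 (WBX_ZDcop N _ hp.1.1)
      have h6 : |Tc R A lam p.1 p.2 - Mn p| ≤ M ^ 2 * bd p :=
        hWPX om hom x Z N R A K₁ K₃ K₄ hx hZ hN hR hA hAx hK₁ hK₃ hK₄ hK hRx M lam hlam p.1 hp.1.1
          p.2 hp.1.2 hp.2
      have h7 : |Tc R A lam p.1 p.2 - (if p ∈ Pr x N A K₁ then Mn p else 0)| ≤
          (if x * (dl p.1 p.2).natAbs ≤ N * A then M ^ 2 * bd p else 0) := by
        by_cases h12 : x * (dl p.1 p.2).natAbs ≤ N * A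
        · have h13 : p ∈ Pr x N A K₁ := by
            unfold Pr
            rw [mem_filter, mem_product]
            exact ⟨hp.1, hp.2, h12⟩
          rw [if_pos h12, if_pos h13]
          exact h6
        · have h13 : p ∉ Pr x N A K₁ := by
            intro h14
            unfold Pr at h14
            exact h12 (mem_filter.mp h14).2.2
          rw [if_neg h12, if_neg h13, sub_zero,
            WBX_zero hREN x Z N R A hx hN hA hAx M lam hlam p.1 p.2 hp.1.1 hp.1.2 (not_le.mp h12), abs_zero]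
      have h8 : D p = (WBX_T R A lam p.1 p.2 - Tc R A lam p.1 p.2) +
          (Tc R A lam p.1 p.2 - (if p ∈ Pr x N A K₁ then Mn p else 0)) := by
        rw [hD]
        simp only
        ring
      rw [h8]
      exact (abs_add_le _ _).trans (add_le_add h4 h7)
    have hsumbad : ∑ p ∈ ZD N ×ˢ ZD N, bad p ≤
        C₂ * (1 + Real.log x) * (N * A ^ 2 / Z + x * A * √N + N * √N * A) := by
      have h4 := hp2
      rw [WBX_cardprod] at h4
      exact h4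
    have hsumbd : ∑ p ∈ Pr x N A K₁, bd p ≤ C₃ * (N * A * (A / K₃ + √N)) := by
      refine le_trans ?_ hp3
      unfold Pr
      exact sum_le_sum_of_subset_of_nonneg (filter_subset _ _) fun p _ _ => hbd0 p
    calc ∑ p ∈ ZD N ×ˢ ZD N with N * A < K₁ * (x * (dl p.1 p.2).natAbs), |D p|
        ≤ ∑ p ∈ ZD N ×ˢ ZD N with N * A < K₁ * (x * (dl p.1 p.2).natAbs),
          (M ^ 2 * bad p + (if x * (dl p.1 p.2).natAbs ≤ N * A then M ^ 2 * bd p else 0)) := sum_le_sum hpt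
      _ = ∑ p ∈ ZD N ×ˢ ZD N with N * A < K₁ * (x * (dl p.1 p.2).natAbs), M ^ 2 * bad p +
          ∑ p ∈ Pr x N A K₁, (M ^ 2 * bd p) := by
          rw [sum_add_distrib]
          congr 1
          unfold Pr
          rw [← sum_filter, filter_filter]
      _ ≤ ∑ p ∈ ZD N ×ˢ ZD N, M ^ 2 * bad p + ∑ p ∈ Pr x N A K₁, (M ^ 2 * bd p) := by
          refine add_le_add ?_ le_rfl
          exact sum_le_sum_of_subset_of_nonneg (filter_subset _ _) fun p _ _ => mul_nonneg (sq_nonneg M) (hbad0 p)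
      _ = M ^ 2 * ∑ p ∈ ZD N ×ˢ ZD N, bad p + M ^ 2 * ∑ p ∈ Pr x N A K₁, bd p := by
          rw [← mul_sum, ← mul_sum]
      _ ≤ M ^ 2 * (C₂ * (1 + Real.log x) * (N * A ^ 2 / Z + x * A * √N + N * √N * A)) +
          M ^ 2 * (C₃ * (N * A * (A / K₃ + √N))) := by
          have e3 := mul_le_mul_of_nonneg_left hsumbad (sq_nonneg M)
          have e4 := mul_le_mul_of_nonneg_left hsumbd (sq_nonneg M)
          linarith
      _ = C₂ * b + C₃ * c := by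
          rw [hb, hc]
          ring
  have hsum : ∑ p ∈ ZD N ×ˢ ZD N, |D p| ≤ C₁ * a + (C₂ * b + C₃ * c) := by
    rw [← sum_filter_add_sum_filter_not (ZD N ×ˢ ZD N) (fun p => N * A < K₁ * (x * (dl p.1 p.2).natAbs))]
    linarith
  have hident : WW N R A β lam - ∑ p ∈ Pr x N A K₁, β p.1 * β p.2 * Mn p =
      ∑ p ∈ ZD N ×ˢ ZD N, β p.1 * β p.2 * D p := by
    have h4 : ∑ p ∈ Pr x N A K₁, β p.1 * β p.2 * Mn p =
        ∑ p ∈ ZD N ×ˢ ZD N, (if p ∈ Pr x N A K₁ then β p.1 * β p.2 * Mn p else 0) := by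
      rw [← sum_filter]
      refine sum_congr ?_ fun _ _ => rfl
      ext p
      rw [mem_filter]
      constructor
      · intro h5
        refine ⟨?_, h5⟩
        unfold Pr at h5
        exact (mem_filter.mp h5).1
      · exact fun h5 => h5.2
    rw [h4, WBX_WW, ← sum_sub_distrib]
    refine sum_congr rfl fun p _ => ?_
    rw [hD]
    simp only
    split_ifs
    · ring
    · ring
  have hfin : C₁ * a + (C₂ * b + C₃ * c) ≤ (C₁ + C₂ + C₃ + 1) * (a + b + c) := by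
    have p1 := mul_nonneg hC₁.le hb0
    have p2 := mul_nonneg hC₁.le hc0
    have p4 := mul_nonneg hC₂.le ha0
    have p5 := mul_nonneg hC₂.le hc0
    have p7 := mul_nonneg hC₃.le ha0
    have p8 := mul_nonneg hC₃.le hb0
    linarith
  have hmain : |WW N R A β lam - ∑ p ∈ Pr x N A K₁, β p.1 * β p.2 * Mn p| ≤
      (C₁ + C₂ + C₃ + 1) * Mβ ^ 2 * (a + b + c) := by
    rw [hident]
    calc |∑ p ∈ ZD N ×ˢ ZD N, β p.1 * β p.2 * D p| ≤ ∑ p ∈ ZD N ×ˢ ZD N, |β p.1 * β p.2 * D p| :=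
          abs_sum_le_sum_abs _ _
      _ ≤ ∑ p ∈ ZD N ×ˢ ZD N, Mβ ^ 2 * |D p| := by
          refine sum_le_sum fun p _ => ?_
          rw [abs_mul, abs_mul]
          apply mul_le_mul_of_nonneg_right _ (abs_nonneg _)
          calc |β p.1| * |β p.2| ≤ Mβ * Mβ := mul_le_mul (hβ _) (hβ _) (abs_nonneg _) hMβ
            _ = Mβ ^ 2 := by ring
      _ = Mβ ^ 2 * ∑ p ∈ ZD N ×ˢ ZD N, |D p| := by rw [mul_sum]
      _ ≤ Mβ ^ 2 * ((C₁ + C₂ + C₃ + 1) * (a + b + c)) :=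
          mul_le_mul_of_nonneg_left (hsum.trans hfin) (sq_nonneg _)
      _ = (C₁ + C₂ + C₃ + 1) * Mβ ^ 2 * (a + b + c) := by ring
  refine hmain.trans (le_of_eq ?_)
  rw [ha, hb, hc]
  ring

end Pool.Agent.EU
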